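import Mathlib
import Pool.Agent.H56.KakutaniCount

set_option autoImplicit false

open Finset

namespace Pool.Agent.Results.MP_13c925_nt.FourFifths

/-- Kakutani's map: divide by the first of `2`, `3`, `5` that divides `m`, else `7 m + 1`. -/
def C (m : ℕ) : ℕ :=
  if 2 ∣ m then m / 2 else if 3 ∣ m then m / 3 else if 5 ∣ m then m / 5 else 7 * m + 1

open Classical in
/-- At least `c X ^ (4/5)` of the positive integers `n ≤ X` have a trajectory that reaches `1`. -/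
theorem result : ∃ c : ℝ, 0 < c ∧ ∀ X : ℕ, 1 ≤ X →
    c * (X : ℝ) ^ (4 / 5 : ℝ) ≤
      (((Finset.Icc 1 X).filter fun n : ℕ => ∃ i : ℕ, C^[i] n = 1).card : ℝ) := by
  obtain ⟨c, hc, h⟩ := Pool.Agent.H56.Kakutani.count
  refine ⟨min c (1 / (17 : ℝ) ^ (4 / 5 : ℝ)), by positivity, fun X hX => ?_⟩
  have hX0 : (0 : ℝ) ≤ (X : ℝ) ^ (4 / 5 : ℝ) := by positivity
  rcases Nat.lt_or_ge X 17 with h1 | h1
  · have h2 : (1 : ℝ) ≤ (((Finset.Icc 1 X).filter fun n : ℕ => ∃ i : ℕ, C^[i] n = 1).card : ℝ) := by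
      have : 0 < ((Finset.Icc 1 X).filter fun n : ℕ => ∃ i : ℕ, C^[i] n = 1).card :=
        Finset.card_pos.2 ⟨1, Finset.mem_filter.2 ⟨Finset.mem_Icc.2 ⟨le_rfl, hX⟩, 0, rfl⟩⟩
      exact_mod_cast this
    refine le_trans ?_ h2
    calc min c (1 / (17 : ℝ) ^ (4 / 5 : ℝ)) * (X : ℝ) ^ (4 / 5 : ℝ)
        ≤ 1 / (17 : ℝ) ^ (4 / 5 : ℝ) * (17 : ℝ) ^ (4 / 5 : ℝ) := by
          gcongr
          · exact min_le_right _ _
          · exact_mod_cast h1.le
      _ = 1 := by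
          rw [div_mul_cancel₀]
          positivity
  · have h2 := h X h1
    have h3 : (Pool.Agent.H56.Kakutani.S X).card ≤
        ((Finset.Icc 1 X).filter fun n : ℕ => ∃ i : ℕ, C^[i] n = 1).card := by
      refine Finset.card_le_card fun z hz => ?_
      obtain ⟨h4, -, -, i, hi⟩ := Pool.Agent.H56.Kakutani.mem_S.1 hz
      refine Finset.mem_filter.2 ⟨Finset.mem_Icc.2 h4, 6 + i, ?_⟩
      have e : C = Pool.Agent.H56.Kakutani.C := rfl
      rw [e, Function.iterate_add_apply, hi]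
      decide
    have h3' : ((Pool.Agent.H56.Kakutani.S X).card : ℝ) ≤
        (((Finset.Icc 1 X).filter fun n : ℕ => ∃ i : ℕ, C^[i] n = 1).card : ℝ) := by
      exact_mod_cast h3
    calc min c (1 / (17 : ℝ) ^ (4 / 5 : ℝ)) * (X : ℝ) ^ (4 / 5 : ℝ)
        ≤ c * (X : ℝ) ^ (4 / 5 : ℝ) := by
          gcongr
          exact min_le_left _ _
      _ ≤ _ := h2.trans h3'

end Pool.Agent.Results.MP_13c925_nt.FourFifths
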